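import Pool.Agent.TH997.DD.Fin2
import Pool.Agent.TH997.DD.EXC
import Pool.Agent.TH997.DD.KRS
import Pool.Agent.TH997.DD.SNDS
import Pool.Agent.TH997.DD.REM
import Pool.Agent.TH997.DD.CTE
import Pool.Agent.TH997.DD.LIO
import Pool.Agent.TH997.DD.RESA
import Pool.Agent.TH997.DD.RESB
import Pool.Agent.TH997.DD.RESC
import Pool.Agent.TH997.DD.CLE
import Pool.Agent.TH997.DD.ASYM
import Pool.Agent.TH997.DD.NV
import Pool.Agent.TH997.DD.GRW
import Pool.Agent.TH997.DD.TAM
import Pool.Agent.TH997.DD.CLT

/-!
# Failure of positivity with bounded gaps in `∃ℝ`, for all linear recurrences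

The reduction of the starting file `UltimatePositivity` is shown to decide, for every rational
linear recurrence (multiple roots and tight behaviour allowed), whether the indices of the
nonpositive terms have bounded gaps; otherwise there are at most `C N / (log N) ^ (2 ^ (-k))` of
them below `N`. The certificate is a negative value of the dominant part in some residue class on
the closure of the powers; without certificate the dominant part is nonnegative in every residue
class, and it is at most `C / n` at the nonpositive terms. An exponential sum whose bases are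
separated as in Liouville's inequality is that small only seldom: two close small values can be
used to remove a base from the sum.
-/

set_option autoImplicit false

namespace Pool.Agent.Results.MP_dd7719_lc.DensityDichotomy

open Pool.Agent.NPC Pool.Agent.NPC.ER Pool.Agent.H612.LR Pool.Agent.TH286.GT.Main
open Pool.Agent.TH997.DD
open scoped Classical

theorem result : ∃ f : List Bool → Fm, PolyTime (fun w => bits (f w)) ∧
    (∀ l : Rec, l ≠ [] →
      (ETR (f (bits l)) ↔ ∃ b : ℕ, ∀ N : ℕ, ∃ n, N ≤ n ∧ n ≤ N + b ∧ seq l n ≤ 0)) ∧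
    (∀ l : Rec, l ≠ [] →
      (¬ ETR (f (bits l)) ↔ ∃ C : ℝ, ∀ N : ℕ, 2 ≤ N →
        (((Finset.range N).filter (fun n => seq l n ≤ 0)).card : ℝ) ≤
          C * (N / Real.log N ^ ((1 / 2 : ℝ) ^ l.length)))) ∧
    (∀ l : Rec, l ≠ [] → Simple l ∨ NonTight l ∨ SmallMultipleRoots l ∨ Tame l →
      (ETR (f (bits l)) ↔ ¬ UltPositive l)) := by
  have hS : SNDS := snds krs
  have hE : CLE := cle resa resb (resc lio) (cte rem)
  have hT : CLT := clt resa (tam asym nv (resc lio)) grw
  obtain ⟨f, hf, h⟩ := Pool.Agent.TH997.DD.Fin2.main_str hS hE hT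
  refine ⟨f, hf, fun l hl => ?_, fun l hl => ?_, fun l hl hc => ?_⟩
  · refine ⟨(h l hl).1, fun hs => ?_⟩
    by_contra hno
    exact exc l hs ((h l hl).2.1 hno)
  · refine ⟨(h l hl).2.1, fun hs hE' => exc l ((h l hl).1 hE') hs⟩
  · refine ⟨fun hE' hU => ?_, fun hU => (h l hl).2.2 ?_ hU⟩
    · obtain ⟨b, hb⟩ := (h l hl).1 hE'
      obtain ⟨N, hN⟩ := hU
      obtain ⟨n, h1, _, h3⟩ := hb N
      exact absurd (hN n h1) (not_lt.2 h3)
    · rcases hc with hc | hc | hc | hc
      · exact Or.inr (Or.inl (small_of_simple l hc))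
      · exact Or.inl hc
      · exact Or.inr (Or.inl hc)
      · exact Or.inr (Or.inr hc)

end Pool.Agent.Results.MP_dd7719_lc.DensityDichotomy
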