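import Pool.Agent.TH717.ST.Pos1
import Pool.Agent.H612.LR.MainP
import Pool.Agent.TH286.GT.Main
import Pool.Agent.TH286.GT.All

/-!
# Positivity of each fixed simple recurrence, of any order, is in `∀ℝ`

There is one sequence of polynomial-time functions `F A` to sentences of the existential theory of
the reals, all of them sound for the failure of Positivity of all rational instances, such that for
every fixed simple recurrence `u_n = a_1 u_{n-1} + ... + a_k u_{n-k}` with rational coefficients (of
any order `k`) all but finitely many `F A` are also complete for the instances with this recurrence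
and arbitrary rational initial values.

The main point is a bound for the indices of nonpositive terms: if all but finitely many terms of
a simple recurrence sequence are positive then `u_n ≤ 0` implies `n ≤ B * s`, where `s` is the size
of the instance and `B` depends on the coefficients only.

Proof idea of the bound. After a change `u_n -> L^n D u_n` the recurrence and the terms are
integral, and we may assume that `0` is not a root. Let `ρ` be the largest modulus of a
characteristic root with nonzero contribution. The contribution of modulus `ρ` at `n` is either zero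
or of size at least `ρ ^ n exp (-δ n)` for all `n` larger than `B log A` (`A` = the size of the
initial values; `δ` is fixed, and arbitrary). Otherwise take a sequence of counterexamples whose
state vectors span a rational subspace `V` of minimal dimension. The state vectors of
`u_n` lie in the lattices `C^n ℤ^d` (`C` the companion matrix), whose intersections with a rational
subspace invariant under a power of `C` have covolume computed by the determinant of this power; the
subspace theorem (library `Pool.Agent.TH286.GT`: adelic Minkowski theorem, theorem of the index) is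
proved here in the form needed for these lattices (`GapT`, `RedT`, `SubT`), and it shows that the
contributions of the classes of roots modulo roots of unity vanish one by one. So at an index
`n > B log A` with `u_n ≤ 0` the contribution of modulus `ρ` is negative and dominates; by
Dirichlet's theorem it is almost the same, after division by `ρ^m`, at infinitely many indices `m`,
where the sequence is then negative.
-/

set_option autoImplicit false

namespace Pool.Agent.Results.MP_dd7719_lc.FixedSimpleRecurrences

open Pool.Agent.NPC Pool.Agent.NPC.ER Pool.Agent.NPC.H612 Pool.Agent.H612.PG Pool.Agent.H612.LR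

theorem upoly_Nb (A : ℕ) : UPoly (fun l : Rec => (1 + Pool.Agent.H612.LR.sz l) ^ A) := by
  have h := UPoly.eval (Pool.Agent.NPC.H612.LRP.upoly_sz Pool.Agent.NPC.Poly.id)
    ((Polynomial.C 1 + Polynomial.X) ^ A)
  simpa only [Polynomial.eval_add, Polynomial.eval_C, Polynomial.eval_pow, Polynomial.eval_X]
    using h

/-- the reductions: failure of ultimate positivity, or a nonpositive term with index less than
`2 ^ ((1 + s) ^ A)` -/
theorem typed (A : ℕ) : ∃ g : Rec → Fm, Pool.Agent.NPC.Poly g ∧ ∀ l : Rec, l ≠ [] →
    (ETR (g l) → ¬ Positive l) ∧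
    (Simple l → (¬ UltPositive l ∨
      ∃ n, n < 2 ^ ((1 + Pool.Agent.H612.LR.sz l) ^ A) ∧ seq l n ≤ 0) → ETR (g l)) := by
  obtain ⟨gu, hgu, hu⟩ := Pool.Agent.TH286.GT.Main.main_up Pool.Agent.TH286.GT.growth
  refine ⟨fun l => disj [gu l, tmFm l ((1 + Pool.Agent.H612.LR.sz l) ^ A), smFm l], ?_,
    fun l hl => ?_⟩
  · exact poly_disj (Pool.Agent.NPC.Poly.cons hgu (Pool.Agent.NPC.Poly.cons
      (t_PLP.2.2.1 _ (upoly_Nb A)) (Pool.Agent.NPC.Poly.cons
        t_PLP.2.2.2 (Pool.Agent.NPC.Poly.const []))))
  · have hk : 1 ≤ l.length := List.length_pos_iff.2 hl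
    obtain ⟨h1, h2⟩ := hu l hl
    have hT := t_TM t_RPE t_RPU l ((1 + Pool.Agent.H612.LR.sz l) ^ A) hk
    have hS := t_SM l
    rw [etr_disj]
    simp only [List.mem_cons, List.not_mem_nil, or_false, exists_eq_or_imp, exists_eq_left]
    refine ⟨?_, fun hsim hor => ?_⟩
    · rintro (h | h | h)
      · intro hpos
        exact h1 h ⟨0, fun n _ => hpos n⟩
      · obtain ⟨n, _, _, hn⟩ := hT.1 h
        intro hpos
        exact absurd (hpos n) (not_lt.2 hn)
      · obtain ⟨n, _, hn⟩ := hS.1 h
        intro hpos
        exact absurd (hpos n) (not_lt.2 hn)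
    · rcases hor with hnup | ⟨n, hnlt, hn⟩
      · exact Or.inl (h2 (Or.inr (Pool.Agent.TH286.GT.Main.small_of_simple l hsim)) hnup)
      · by_cases hnk : n < l.length
        · exact Or.inr (Or.inr (hS.2 ⟨n, hnk, hn⟩))
        · exact Or.inr (Or.inl (hT.2 ⟨n, not_lt.1 hnk, hnlt, hn⟩))

theorem lt_bound (B s A : ℕ) (hs : 1 ≤ s) (hA : B + 1 ≤ A) : B * s < 2 ^ ((1 + s) ^ A) := by
  have h1 : 1 + A * s ≤ (1 + s) ^ A := by
    clear hA
    induction A with
    | zero => simp
    | succ A ih =>
      rw [pow_succ]
      nlinarith [Nat.zero_le (A * s * s)]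
  have h2 : B + s ≤ (1 + s) ^ A := by nlinarith
  calc B * s < 2 ^ B * 2 ^ s := Nat.mul_lt_mul'' (Nat.lt_pow_self (by norm_num))
        (Nat.lt_pow_self (by norm_num))
    _ = 2 ^ (B + s) := by rw [pow_add]
    _ ≤ 2 ^ ((1 + s) ^ A) := Nat.pow_le_pow_right (by norm_num) h2

theorem result : ∃ F : ℕ → List Bool → Fm,
    (∀ A, PolyTime (fun w => bits (F A w))) ∧
    (∀ A, ∀ l : Rec, l ≠ [] → ETR (F A (bits l)) → ¬ Positive l) ∧
    ∀ c : List ℚ, c ≠ [] →
      (∃ A0, ∀ A, A0 ≤ A → ∀ l : Rec, l.map Prod.fst = c →
        Simple l → (ETR (F A (bits l)) ↔ ¬ Positive l)) ∧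
      (∃ B : ℕ, ∀ l : Rec, l.map Prod.fst = c →
        Simple l → UltPositive l → ∀ n, seq l n ≤ 0 → n ≤ B * Pool.Agent.H612.LR.sz l) := by
  choose g hg h using typed
  choose F hF h' using fun A => toStr (hg A)
  refine ⟨F, hF, fun A l hl hE => (h A l hl).1 (by rwa [h'] at hE), fun c hc => ?_⟩
  obtain ⟨B, hB⟩ := Pool.Agent.TH717.ST.thr_rat c
  refine ⟨⟨B + 1, fun A hA l hl hs => ?_⟩, B, hB⟩
  have hne : l ≠ [] := by
    rintro rfl
    exact hc (by simpa using hl.symm)
  rw [h']
  refine ⟨(h A l hne).1, fun hnp => (h A l hne).2 hs ?_⟩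
  by_cases hup : UltPositive l
  · right
    have : ∃ n, seq l n ≤ 0 := by
      by_contra hcon
      push Not at hcon
      exact hnp hcon
    obtain ⟨n, hn⟩ := this
    refine ⟨n, (hB l hl hs hup n hn).trans_lt (lt_bound B _ A ?_ hA), hn⟩
    exact (Nat.succ_le_of_lt (List.length_pos_iff.2 hne)).trans
      (Pool.Agent.TH717.SK.P0.len_le_sz l)
  · exact Or.inl hup

end Pool.Agent.Results.MP_dd7719_lc.FixedSimpleRecurrences
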