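import Pool.Agent.TH286.GT.All
import Pool.Agent.TH286.GT.Main

/-!
# Ultimate Positivity of simple linear recurrences in `∀ℝ`

The failure of ultimate positivity is reduced in polynomial time to the existential theory of the
reals. The reduction is that of `Pool.Agent.H612.LR` (chains of monomial certificates). Its
completeness for all simple recurrences needs the growth theorem of Evertse and of van der Poorten
and Schlickewei, which is proved here (`Pool.Agent.TH286.GT`): a subspace theorem with algebraic
linear forms for the points of lattices `B_t ℤ^n` with `M B_t = diag(β_t) M`.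
-/

set_option autoImplicit false

namespace Pool.Agent.Results.MP_dd7719_lc.SimpleUltimatePositivity

open Pool.Agent.NPC Pool.Agent.NPC.ER Pool.Agent.H612.LR Pool.Agent.TH286.GT.Main

theorem result : ∃ f : List Bool → Fm, PolyTime (fun w => bits (f w)) ∧
    (∀ l : Rec, l ≠ [] → ETR (f (bits l)) → ¬ UltPositive l) ∧
    (∀ l : Rec, l ≠ [] → Simple l → (ETR (f (bits l)) ↔ ¬ UltPositive l)) ∧
    (∀ l : Rec, l ≠ [] → NonTight l ∨ SmallMultipleRoots l →
      (ETR (f (bits l)) ↔ ¬ UltPositive l)) := by
  obtain ⟨g, hg, h⟩ := main_up Pool.Agent.TH286.GT.growth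
  obtain ⟨f, hf, h'⟩ := toStr hg
  refine ⟨f, hf, fun l hl => ?_, fun l hl hs => ?_, fun l hl hc => ?_⟩
  · rw [h']; exact (h l hl).1
  · rw [h']; exact ⟨(h l hl).1, (h l hl).2 (Or.inr (small_of_simple l hs))⟩
  · rw [h']; exact ⟨(h l hl).1, (h l hl).2 hc⟩

end Pool.Agent.Results.MP_dd7719_lc.SimpleUltimatePositivity
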