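import Pool.Agent.TH997.UP.Fin
import Pool.Agent.TH997.UP.CL
import Pool.Agent.TH997.UP.CMP
import Pool.Agent.TH997.UP.CNT
import Pool.Agent.TH997.UP.SCL
import Pool.Agent.TH997.UP.HB
import Pool.Agent.TH997.UP.PD
import Pool.Agent.TH997.UP.ACT
import Pool.Agent.TH997.UP.WND
import Pool.Agent.TH997.UP.WIN
import Pool.Agent.TH997.UP.ZBK
import Pool.Agent.TH997.UP.C9K
import Pool.Agent.TH997.UP.DETH
import Pool.Agent.TH997.UP.RKK
import Pool.Agent.TH997.UP.CRM
import Pool.Agent.TH997.UP.POSL

/-!
# Positivity of simple linear recurrences in `∀ℝ` up to a sparse set of indices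

First part: a simple ultimately positive recurrence of size `s` has at most
`2 ^ (C s ^ C) (log_2 N + 1)` indices `n < N` with `n ≥ 2 ^ (C s ^ C)` and `u_n ≤ 0`. In a window
`[X, X + X / W]` the dominant part of the sequence is nonnegative at every integer and
exponentially small at the indices with `u_n ≤ 0`. If there are many of them then a nonzero
generalised Vandermonde determinant (which exists by a `p`-adic bound for the number of zeros of
exponential sums with arbitrary coefficients) and Cramer's rule show that all coefficients of the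
dominant part are too small.

Second part: the set `L` of the indices `n ≥ 2 ^ (s ^ A)` with `u_n ≤ 0` for some recurrence `u` of
size at most `s` which has not too many such indices below `n` is decidable and very sparse, and
nonpositive terms with index outside `L` are found by guessing an index with polynomially many
binary digits.
-/

set_option autoImplicit false

namespace Pool.Agent.Results.MP_dd7719_lc.UniversalIndexSet

open Pool.Agent.NPC Pool.Agent.NPC.ER Pool.Agent.H612.LR Pool.Agent.TH997.UP
open scoped Classical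

/-- The counting theorem. -/
theorem few : CLs := by
  have h1 : ZBK := zbk c9k deth
  have h2 : WND := wnd h1 deth rkk crm posl
  exact cl (act h2 win) pd hb

theorem result :
    (∃ C : ℕ, ∀ l : Rec, l ≠ [] → Simple l → UltPositive l → ∀ N : ℕ,
      ((Finset.range N).filter
        (fun n => 2 ^ (C * Pool.Agent.H612.LR.sz l ^ C) ≤ n ∧ seq l n ≤ 0)).card ≤
          2 ^ (C * Pool.Agent.H612.LR.sz l ^ C) * (Nat.log 2 N + 1)) ∧
    (∀ η : ℝ, 0 < η → ∃ (L : Set ℕ) (f : List Bool → Fm),
      ComputablePred (fun n : ℕ => n ∈ L) ∧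
      (∃ N0 : ℕ, ∀ N : ℕ, N0 ≤ N → ((L ∩ Set.Iio N).ncard : ℝ) ≤ Real.exp (Real.log N ^ η)) ∧
      PolyTime (fun w => bits (f w)) ∧
      (∀ l : Rec, l ≠ [] → ETR (f (bits l)) → ¬ Positive l) ∧
      (∀ l : Rec, l ≠ [] → Simple l → (¬ UltPositive l ∨ ∃ n, n ∉ L ∧ seq l n ≤ 0) →
        ETR (f (bits l))) ∧
      (∀ l : Rec, l ≠ [] → NonTight0 l → ¬ Positive l → ETR (f (bits l)))) := by
  refine ⟨few, fun η hη => ?_⟩
  obtain ⟨L, f, h1, h2, h3, h4⟩ := main_str few scl cntS cmp η hη
  exact ⟨L, f, h1, h2, h3, fun l hl => (h4 l hl).1, fun l hl => (h4 l hl).2.1,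
    fun l hl => (h4 l hl).2.2⟩

end Pool.Agent.Results.MP_dd7719_lc.UniversalIndexSet
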